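import Pool.Agent.Results.MP_90c6bd_nt.AlmostAllRationals
import Pool.Agent.R482.ST.Vec

/-!
# Lang's lower bound for linear forms in the logarithms of all tuples of rationals near the vectors of a sequence

Let `f_k`, `k = 0, 1, 2, …`, be positive functions on `(a₀, ∞)`, `a₀ ≥ 0`, such that `f_k(t) / t` is nondecreasing, and such
that the sequence `f_k(t)` has exponent of convergence at most `τ` for each `t > a₀`: for instance `f_k(t) = v_k t`
(dilatations; `τ` the exponent of convergence of `v_k > 0`), `f_k(t) = t ^ (v_k)` for exponents `v_k ≥ 1` (`τ = 0`), or the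
orbits `f_k(t) = g (g (⋯ g (t)))` of any map `g` with `g(t) > t` and `g(t) / t` nondecreasing (`τ = 0`).
Let `n ≥ 1`, `σ ≥ 0` and `θ < 1`. For all vectors `u` in `ℝ^(2 n)` (maximum norm), `‖u‖ > a₀`, outside a set of Hausdorff
dimension at most `(2 (n - 1) + n σ + τ) / (1 - θ)` and all constants `c`, for all but finitely many `k`, with `r = f_k(‖u‖)`:
Lang's inequality with the constant `1 / 8` and without loss in the exponent holds for ALL tuples `q` of `n` positive rational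
numbers whose numerators and denominators differ by at most `c r ^ θ` from the components of `(r / ‖u‖) u`, and ALL tuples
`b ≠ 0` of integers with `|b_i| ≤ r ^ σ`.
-/

set_option autoImplicit false

namespace Pool.Agent.Results.MP_90c6bd_nt.StarshapedRationals

open AlmostAllRationals (Lam maxB prodBA Exceptional Rats hgt)

/-- the functions `f n` are positive on `(a, ∞)`, `a ≥ 0`, and `f n x / x` is nondecreasing there -/
def Starshaped (a : ℝ) (f : ℕ → ℝ → ℝ) : Prop :=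
  0 ≤ a ∧ ∀ n : ℕ, ∀ x y : ℝ, a < x → x ≤ y → 0 < f n x ∧ f n x / x ≤ f n y / y

/-- for each `x > a` the exponent of convergence of the sequence `f n x` is at most `τ` -/
def ExpLe (a : ℝ) (f : ℕ → ℝ → ℝ) (τ : ℝ) : Prop :=
  ∀ x : ℝ, a < x → ∀ t : ℝ, τ < t → Summable (fun n : ℕ => (f n x) ^ (-t))

/-- the numerators and the denominators of the components of `q` differ by at most `ρ` from the components of
`(g ‖u‖ / ‖u‖) u` -/
def Near {n : ℕ} (g : ℝ → ℝ) (ρ : ℝ) (u : Fin n ⊕ Fin n → ℝ) (q : Fin n → ℚ) : Prop :=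
  ∀ i, |((q i).num : ℝ) - g ‖u‖ / ‖u‖ * u (Sum.inl i)| ≤ ρ ∧ |((q i).den : ℝ) - g ‖u‖ / ‖u‖ * u (Sum.inr i)| ≤ ρ

/-- numerators and denominators -/
def nd {n : ℕ} (q : Fin n → ℚ) : Fin n ⊕ Fin n → ℤ := Sum.elim (fun i => (q i).num) (fun i => ((q i).den : ℤ))

lemma rats_ncard (A : ℕ) : (Rats A).ncard ≤ A ^ 2 := by
  have hsub : (fun x : ℚ => (x.num, (x.den : ℤ))) '' Rats A ⊆
      ((Finset.Icc (1 : ℤ) A ×ˢ Finset.Icc (1 : ℤ) A : Finset (ℤ × ℤ)) : Set (ℤ × ℤ)) := by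
    rintro _ ⟨x, ⟨h1, h2⟩, rfl⟩
    have h3 := Rat.num_pos.2 h1
    have h4 := x.den_pos
    unfold hgt at h2
    rw [max_le_iff] at h2
    rw [Finset.mem_coe, Finset.mem_product, Finset.mem_Icc, Finset.mem_Icc]
    dsimp only
    omega
  have hinj : Function.Injective (fun x : ℚ => (x.num, (x.den : ℤ))) := by
    intro x y h
    rw [Prod.mk.injEq] at h
    exact Rat.ext h.1 (by exact_mod_cast h.2)
  rw [← Set.ncard_image_of_injective _ hinj]
  refine (Set.ncard_le_ncard hsub (Finset.finite_toSet _)).trans ?_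
  rw [Set.ncard_coe_finset, Finset.card_product, Int.card_Icc]
  have h : ((A : ℤ) + 1 - 1).toNat = A := by omega
  rw [h, sq]

/-- **Theorem.** Let `n ≥ 1`, `σ ≥ 0`, `f` starshaped functions on `(a, ∞)` of exponent of convergence at most `τ ≥ 0` and `θ < 1`.
There is a set `E` of Hausdorff dimension at most `(2 (n - 1) + n σ + τ) / (1 - θ)` such that for each `u` outside `E`, `‖u‖ > a`,
each `c` and all but finitely many `k`, with `r = f_k(‖u‖)`: for ALL tuples `q` of positive rational numbers whose numerators and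
denominators are near `(r / ‖u‖) u` (`Near`, with `c r ^ θ`) and ALL tuples `b ≠ 0` of integers with `|b_j| ≤ r ^ σ` one has
`|b_1 log q_1 + ⋯ + b_n log q_n| > (1/8) B / ∏ B_j A_j ^ 2`.
The functions `v_n x`, `v_n > 0`, are starshaped on `(0, ∞)`, of exponent `τ` if `v` has exponent of convergence at most
`τ`; the functions `x ^ (v_n)`, `v_n ≥ 1`, are starshaped on `(1, ∞)`, of exponent `0` if the sums of `exp (-t v_n)` converge
for `t > 0`; and the iterates of a map `g` with `g(x) > x` for `x > a` and `g(x) / x` nondecreasing are starshaped on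
`(a, ∞)`, of exponent `0`. -/
theorem result :
    (∀ (n : ℕ) (a : ℝ) (f : ℕ → ℝ → ℝ) (τ θ σ : ℝ), 1 ≤ n → Starshaped a f → 0 ≤ τ → ExpLe a f τ → θ < 1 → 0 ≤ σ →
      ∃ E : Set (Fin n ⊕ Fin n → ℝ), dimH E ≤ ENNReal.ofReal ((2 * ((n : ℝ) - 1) + n * σ + τ) / (1 - θ)) ∧
        ∀ u : Fin n ⊕ Fin n → ℝ, a < ‖u‖ → u ∉ E → ∀ c : ℝ, ∃ k₀ : ℕ, ∀ k : ℕ, k₀ ≤ k → ∀ q : Fin n → ℚ, (∀ i, 0 < q i) →
          Near (f k) (c * (f k ‖u‖) ^ θ) u q → ∀ b : Fin n → ℤ, b ≠ 0 → (∀ i, |(b i : ℝ)| ≤ (f k ‖u‖) ^ σ) →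
            1 / 8 * (maxB b : ℝ) / (prodBA q b : ℝ) < |Lam q b|) ∧
    (∀ (v : ℕ → ℝ) (τ : ℝ), (∀ n, 0 < v n) → (∀ t : ℝ, τ < t → Summable (fun n : ℕ => (v n) ^ (-t))) →
      Starshaped 0 (fun n x => v n * x) ∧ ExpLe 0 (fun n x => v n * x) τ) ∧
    (∀ v : ℕ → ℝ, (∀ n, 1 ≤ v n) → (∀ t : ℝ, 0 < t → Summable fun n : ℕ => Real.exp (-(t * v n))) →
      Starshaped 1 (fun n x => x ^ (v n)) ∧ ExpLe 1 (fun n x => x ^ (v n)) 0) ∧
    (∀ (a : ℝ) (g : ℝ → ℝ), 0 ≤ a → (∀ x y : ℝ, a < x → x ≤ y → g x / x ≤ g y / y) → (∀ x : ℝ, a < x → x < g x) →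
      Starshaped a (fun n x => g^[n] x) ∧ ExpLe a (fun n x => g^[n] x) 0) := by
  refine ⟨fun n a f τ θ σ hn hf hτ hE hθ hσ => ?_, Pool.Agent.R482.ST.ex_mul, Pool.Agent.R482.ST.ex_pow, Pool.Agent.R482.ST.ex_orbit⟩
  classical
  have hn' : (1 : ℝ) ≤ n := by exact_mod_cast hn
  have hn0 : (0 : ℝ) ≤ (n : ℝ) - 1 := by linarith
  obtain ⟨E, h1, h2⟩ := Pool.Agent.R482.ST.vec_prop (ι := Fin n ⊕ Fin n)
    (fun z X => ∃ q : Fin n → ℚ, (∀ i, 0 < q i) ∧ nd q = z ∧ ∃ b : Fin n → ℤ, b ≠ 0 ∧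
      (∀ i, |(b i : ℝ)| ≤ (max X 0) ^ σ) ∧ |Lam q b| ≤ 1 / 8 * (maxB b : ℝ) / (prodBA q b : ℝ))
    (fun z X Y hXY ⟨x, h0, h1, b, h2, h3, h4⟩ => ⟨x, h0, h1, b, h2, fun i => (h3 i).trans (Real.rpow_le_rpow
      (le_max_right _ _) (max_le_max hXY le_rfl) hσ), h4⟩)
    (s := 2 * ((n : ℝ) - 1) + n * σ) (by positivity) (fun ε hε => by
      have hlog : ∃ C : ℝ, 0 ≤ C ∧ ∀ A : ℕ, 1 ≤ A → ((Nat.log 2 A : ℕ) : ℝ) + 1 ≤ C * (A : ℝ) ^ ε := by
        refine ⟨2 * (1 / ε) + 1, by positivity, fun A hA => ?_⟩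
        have hA1 : (1 : ℝ) ≤ A := by exact_mod_cast hA
        have hp1 : (1 : ℝ) ≤ (A : ℝ) ^ ε := Real.one_le_rpow hA1 hε.le
        have h3 : ((Nat.log 2 A : ℕ) : ℝ) ≤ 2 * Real.log A := by
          have h4 : (2 : ℝ) ^ (Nat.log 2 A) ≤ A := by exact_mod_cast Nat.pow_log_le_self 2 (by omega)
          have h5 := Real.log_le_log (by positivity) h4
          rw [Real.log_pow] at h5
          have h6 := Real.log_two_gt_d9
          have h7 : (0 : ℝ) ≤ (Nat.log 2 A : ℕ) := Nat.cast_nonneg _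
          nlinarith
        have h4 : Real.log A ≤ (A : ℝ) ^ ε / ε := Real.log_le_rpow_div (by linarith) hε
        have h5 : (A : ℝ) ^ ε / ε = 1 / ε * (A : ℝ) ^ ε := by ring
        rw [h5] at h4
        nlinarith
      obtain ⟨C, hC0, hC⟩ := hlog
      refine ⟨3 ^ n * C, fun A hA => ?_⟩
      have hA1 : (1 : ℝ) ≤ A := by exact_mod_cast hA
      have hA0 : (0 : ℝ) < A := by linarith
      obtain ⟨-, hfin, hcard⟩ := AlmostAllRationals.result n A ⌊(A : ℝ) ^ σ⌋₊ hn 0 le_rfl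
      have hsub : {z : Fin n ⊕ Fin n → ℤ | (∀ i, |z i| ≤ (A : ℤ)) ∧ ∃ q : Fin n → ℚ, (∀ i, 0 < q i) ∧ nd q = z ∧
          ∃ b : Fin n → ℤ, b ≠ 0 ∧ (∀ i, |(b i : ℝ)| ≤ (max (A : ℝ) 0) ^ σ) ∧
            |Lam q b| ≤ 1 / 8 * (maxB b : ℝ) / (prodBA q b : ℝ)} ⊆ nd '' (Exceptional n A ⌊(A : ℝ) ^ σ⌋₊ 0) := by
        rintro z ⟨h1, q, h2, h3, b, h4, h5, h6⟩
        refine ⟨q, ⟨fun i => ⟨h2 i, ?_⟩, b, h4, fun i => ?_, ?_⟩, h3⟩
        · have h7 := h1 (Sum.inl i)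
          have h8 := h1 (Sum.inr i)
          rw [← h3] at h7 h8
          simp only [nd, Sum.elim_inl, Sum.elim_inr] at h7 h8
          rw [abs_le] at h7 h8
          unfold hgt
          rw [max_le_iff]
          omega
        · apply Nat.le_floor
          have h6 := h5 i
          rw [max_eq_left hA0.le] at h6
          rw [Nat.cast_natAbs, Int.cast_abs]
          exact h6
        · rw [add_zero, Real.rpow_one]
          exact h6
      have h3 := Set.ncard_le_ncard hsub (hfin.image _)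
      have h4 := h3.trans (Set.ncard_image_le hfin)
      have h5 : ((⌊(A : ℝ) ^ σ⌋₊ : ℕ) : ℝ) ≤ (A : ℝ) ^ σ := Nat.floor_le (by positivity)
      have h6 : (1 : ℝ) ≤ (A : ℝ) ^ σ := Real.one_le_rpow hA1 hσ
      obtain ⟨m, rfl⟩ : ∃ m, n = m + 1 := ⟨n - 1, by omega⟩
      have h7 : (2 * ⌊(A : ℝ) ^ σ⌋₊ + 1) ^ (m + 1) * ((Nat.log 2 A + 1) * (Rats A).ncard ^ (m + 1 - 1)) ≤
          (2 * ⌊(A : ℝ) ^ σ⌋₊ + 1) ^ (m + 1) * ((Nat.log 2 A + 1) * (A ^ 2) ^ m) :=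
        Nat.mul_le_mul_left _ (Nat.mul_le_mul_left _ (Nat.pow_le_pow_left (rats_ncard A) m))
      calc _ ≤ (((2 * ⌊(A : ℝ) ^ σ⌋₊ + 1) ^ (m + 1) * ((Nat.log 2 A + 1) * (A ^ 2) ^ m) : ℕ) : ℝ) := by
            exact_mod_cast (h4.trans hcard).trans h7
        _ = (2 * (⌊(A : ℝ) ^ σ⌋₊ : ℝ) + 1) ^ (m + 1) * ((((Nat.log 2 A : ℕ) : ℝ) + 1) * ((A : ℝ) ^ 2) ^ m) := by
            push_cast
            rfl
        _ ≤ (3 * (A : ℝ) ^ σ) ^ (m + 1) * ((C * (A : ℝ) ^ ε) * ((A : ℝ) ^ 2) ^ m) := by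
            apply mul_le_mul (pow_le_pow_left₀ (by positivity) (by linarith) _) _ (by positivity) (by positivity)
            exact mul_le_mul_of_nonneg_right (hC A hA) (by positivity)
        _ = 3 ^ (m + 1) * C * (A : ℝ) ^ (2 * (((m + 1 : ℕ) : ℝ) - 1) + ((m + 1 : ℕ) : ℝ) * σ + ε) := by
            rw [mul_pow, ← Real.rpow_natCast ((A : ℝ) ^ σ) (m + 1), ← Real.rpow_mul hA0.le, ← pow_mul,
              ← Real.rpow_natCast (A : ℝ) (2 * m),
              show 2 * (((m + 1 : ℕ) : ℝ) - 1) + ((m + 1 : ℕ) : ℝ) * σ + ε =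
                σ * ((m + 1 : ℕ) : ℝ) + (ε + ((2 * m : ℕ) : ℝ)) by push_cast; ring,
              Real.rpow_add hA0, Real.rpow_add hA0]
            ring) f a τ θ hf hτ hE hθ
  refine ⟨E, h1, fun u hu huE c => ?_⟩
  obtain ⟨k₀, hk⟩ := h2 u hu huE c
  refine ⟨k₀, fun k hk1 q hq hnear b hb0 hb1 => ?_⟩
  by_contra hcon
  push Not at hcon
  have hpos : 0 < f k ‖u‖ := (hf.2 k _ _ hu le_rfl).1
  refine hk k hk1 (nd q) (fun i => ?_) ⟨q, hq, rfl, b, hb0, fun i => ?_, hcon⟩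
  · rcases i with i | i
    · exact (hnear i).1
    · simp only [nd, Sum.elim_inr, Int.cast_natCast]
      exact (hnear i).2
  · rw [max_eq_left hpos.le]
    exact hb1 i

end Pool.Agent.Results.MP_90c6bd_nt.StarshapedRationals
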