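import Pool.Agent.Results.MP_90c6bd_nt.AlmostAllRationalTuples
import Pool.Agent.R482.ST.Frac

/-!
# Linear forms in the logarithms of the shifts of all tuples of fractions near vectors of a sequence

Let `f_k`, `k = 0, 1, 2, …`, be positive functions on `(a₀, ∞)`, `a₀ ≥ 0`, such that `f_k(t) / t` is nondecreasing, and such
that the sequence `f_k(t)` has exponent of convergence at most `τ` for each `t > a₀`: for instance `f_k(t) = v_k t`
(dilatations; `τ` the exponent of convergence of `v_k > 0`), `f_k(t) = t ^ (v_k)` for exponents `v_k ≥ 1` (`τ = 0`), or the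
orbits `f_k(t) = g (g (⋯ g (t)))` of any map `g` with `g(t) > t` and `g(t) / t` nondecreasing (`τ = 0`).
Let `[b₁, b₂] ⊂ (0, ∞)`, let `s_1, …, s_m` be distinct rational numbers `≥ 0`, `κ ≥ 0`, `θ < 1` and `β > 2 - 2 / (n m + 1)`. There
is `B` such that for all vectors `u` in `(ℝ²)ⁿ`, `‖u‖ > a₀`, outside a set of Hausdorff dimension at most
`(2 (n - 1) + β + τ) / (1 - θ)` and each `c`, for all but finitely many `k`, with `r = f_k(‖u‖)`: for ALL tuples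
`q = (q_1, …, q_n)` of fractions in `[b₁, b₂]` whose denominators and numerators differ by at most `c r ^ θ` from the components
of `(r / ‖u‖) u`, all nonzero linear forms in the numbers `log (q_j + s_i)` with integer coefficients of absolute value at most
`r ^ κ` are larger than `r ^ (-B)`.
-/

set_option autoImplicit false

namespace Pool.Agent.Results.MP_90c6bd_nt.StarshapedShifts

/-- the functions `f n` are positive on `(a, ∞)`, `a ≥ 0`, and `f n x / x` is nondecreasing there -/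
def Starshaped (a : ℝ) (f : ℕ → ℝ → ℝ) : Prop :=
  0 ≤ a ∧ ∀ n : ℕ, ∀ x y : ℝ, a < x → x ≤ y → 0 < f n x ∧ f n x / x ≤ f n y / y

/-- for each `x > a` the exponent of convergence of the sequence `f n x` is at most `τ` -/
def ExpLe (a : ℝ) (f : ℕ → ℝ → ℝ) (τ : ℝ) : Prop :=
  ∀ x : ℝ, a < x → ∀ t : ℝ, τ < t → Summable (fun n : ℕ => (f n x) ^ (-t))

/-- The denominators and the numerators of the `q j` differ by at most `δ` from the components of the vector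
`(g ‖u‖ / ‖u‖) u` (the radial extension of `g`; the norm is the maximum norm). -/
def Near {n : ℕ} (g : ℝ → ℝ) (δ : ℝ) (u : Fin n → ℝ × ℝ) (q : Fin n → ℚ) : Prop :=
  ∀ j, |((q j).den : ℝ) - g ‖u‖ / ‖u‖ * (u j).1| ≤ δ ∧ |((q j).num : ℝ) - g ‖u‖ / ‖u‖ * (u j).2| ≤ δ

/-- **Theorem.** Let `[b₁, b₂] ⊂ (0, ∞)`, `n, m ≥ 1`, `s_1, …, s_m ≥ 0` distinct rational numbers, `κ ≥ 0` and
`β > 2 - 2 / (n m + 1)`. There is `B` such that for all starshaped functions `f` on `(a₀, ∞)` of exponent of convergence at most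
`τ ≥ 0` and `θ < 1` there is a set `E` in `(ℝ²)ⁿ` of Hausdorff dimension at most `(2 (n - 1) + β + τ) / (1 - θ)` such that for
each `u` outside `E`, `‖u‖ > a₀`, each `c` and all but finitely many `k`, with `r = f_k(‖u‖)`: for ALL tuples `q` of fractions in
`[b₁, b₂]` whose denominators and numerators are near `(r / ‖u‖) u` (`Near`, with `c r ^ θ`) and all integers `c_ji`, not all zero,
`|c_ji| ≤ r ^ κ`, one has `|∑ c_ji log (q_j + s_i)| > r ^ (-B)`.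
The functions `v_n x`, `v_n > 0`, are starshaped on `(0, ∞)`, of exponent `τ` if `v` has exponent of convergence at most
`τ`; the functions `x ^ (v_n)`, `v_n ≥ 1`, are starshaped on `(1, ∞)`, of exponent `0` if the sums of `exp (-t v_n)` converge
for `t > 0`; and the iterates of a map `g` with `g(x) > x` for `x > a` and `g(x) / x` nondecreasing are starshaped on
`(a, ∞)`, of exponent `0`. -/
theorem result (n m : ℕ) (hn : 1 ≤ n) (hm : 1 ≤ m) (s : Fin m → ℚ) (hs : Function.Injective s) (hs0 : ∀ i, 0 ≤ s i)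
    (b₁ b₂ : ℝ) (hb₁ : 0 < b₁) (hb : b₁ < b₂) (κ β : ℝ) (hκ : 0 ≤ κ) (hβ : 2 - 2 / ((n : ℝ) * m + 1) < β) :
    (∃ B : ℝ, ∀ (f : ℕ → ℝ → ℝ) (a₀ τ θ : ℝ), Starshaped a₀ f → 0 ≤ τ → ExpLe a₀ f τ → θ < 1 →
      ∃ E : Set (Fin n → ℝ × ℝ), dimH E ≤ ENNReal.ofReal ((2 * ((n : ℝ) - 1) + β + τ) / (1 - θ)) ∧
        ∀ u : Fin n → ℝ × ℝ, a₀ < ‖u‖ → u ∉ E → ∀ c : ℝ, ∃ k₀ : ℕ, ∀ k : ℕ, k₀ ≤ k → ∀ q : Fin n → ℚ,
          (∀ j, b₁ ≤ q j ∧ q j ≤ b₂) → Near (f k) (c * (f k ‖u‖) ^ θ) u q →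
            ∀ e : Fin n → Fin m → ℤ, e ≠ 0 → (∀ j i, |(e j i : ℝ)| ≤ (f k ‖u‖) ^ κ) →
              (f k ‖u‖) ^ (-B) < |∑ j, ∑ i, (e j i : ℝ) * Real.log ((q j : ℝ) + (s i : ℝ))|) ∧
    (∀ (v : ℕ → ℝ) (τ : ℝ), (∀ n, 0 < v n) → (∀ t : ℝ, τ < t → Summable (fun n : ℕ => (v n) ^ (-t))) →
      Starshaped 0 (fun n x => v n * x) ∧ ExpLe 0 (fun n x => v n * x) τ) ∧
    (∀ v : ℕ → ℝ, (∀ n, 1 ≤ v n) → (∀ t : ℝ, 0 < t → Summable fun n : ℕ => Real.exp (-(t * v n))) →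
      Starshaped 1 (fun n x => x ^ (v n)) ∧ ExpLe 1 (fun n x => x ^ (v n)) 0) ∧
    (∀ (a : ℝ) (g : ℝ → ℝ), 0 ≤ a → (∀ x y : ℝ, a < x → x ≤ y → g x / x ≤ g y / y) → (∀ x : ℝ, a < x → x < g x) →
      Starshaped a (fun n x => g^[n] x) ∧ ExpLe a (fun n x => g^[n] x) 0) := by
  refine ⟨?_, Pool.Agent.R482.ST.ex_mul, Pool.Agent.R482.ST.ex_pow, Pool.Agent.R482.ST.ex_orbit⟩
  obtain ⟨B0, C0, h0⟩ := AlmostAllRationalTuples.result n m hn hm s hs hs0 b₁ b₂ hb₁ hb κ β hκ hβ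
  have hn' : (1 : ℝ) ≤ n := by exact_mod_cast hn
  have hm' : (1 : ℝ) ≤ m := by exact_mod_cast hm
  have hnm : (1 : ℝ) ≤ (n : ℝ) * m := by nlinarith
  have hβ0 : 0 < β := by
    have h1 : 2 / ((n : ℝ) * m + 1) ≤ 1 := by
      rw [div_le_one (by linarith)]
      linarith
    linarith
  obtain ⟨B, h⟩ := Pool.Agent.R482.ST.tuple_windows {q : Fin n → ℚ | ∀ j, b₁ ≤ (q j : ℝ) ∧ (q j : ℝ) ≤ b₂}
    (fun q M δ => ∃ e : Fin n → Fin m → ℤ, e ≠ 0 ∧ (∀ j i, |(e j i : ℝ)| ≤ M) ∧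
      |∑ j, ∑ i, (e j i : ℝ) * Real.log ((q j : ℝ) + (s i : ℝ))| ≤ δ)
    (fun q M δ M' δ' h1 h2 ⟨e, h3, h4, h5⟩ => ⟨e, h3, fun j i => (h4 j i).trans h1, h5.trans h2⟩) hκ
    (s := 2 * ((n : ℝ) - 1) + β) (by linarith) ⟨B0, C0, fun T hT => by
      have he : {t : Fin n → ℚ | t ∈ {q : Fin n → ℚ | ∀ j, b₁ ≤ (q j : ℝ) ∧ (q j : ℝ) ≤ b₂} ∧ (∀ j, ((t j).den : ℝ) ≤ T) ∧
          ∃ e : Fin n → Fin m → ℤ, e ≠ 0 ∧ (∀ j i, |(e j i : ℝ)| ≤ T ^ κ) ∧
            |∑ j, ∑ i, (e j i : ℝ) * Real.log ((t j : ℝ) + (s i : ℝ))| ≤ T ^ (-B0)} =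
          AlmostAllRationalTuples.Exceptional n s b₁ b₂ κ B0 T := by
        ext q
        constructor
        · rintro ⟨g1, g2, g3⟩
          exact ⟨fun j => ⟨(g1 j).1, (g1 j).2, g2 j⟩, g3⟩
        · rintro ⟨g1, g3⟩
          exact ⟨fun j => ⟨(g1 j).1, (g1 j).2.1⟩, fun j => (g1 j).2.2, g3⟩
      beta_reduce
      rw [he]
      exact h0 T hT⟩
  refine ⟨B, fun f a₀ τ θ hf hτ hE hθ => ?_⟩
  obtain ⟨E, h1, h2⟩ := h f a₀ τ θ hf hτ hE hθ
  refine ⟨E, h1, fun u hu huE c => ?_⟩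
  obtain ⟨k₀, hk⟩ := h2 u hu huE c
  refine ⟨k₀, fun k hk1 q hq hnear e he0 he1 => ?_⟩
  by_contra hcon
  push Not at hcon
  exact hk k hk1 q hq hnear ⟨e, he0, he1, hcon⟩

end Pool.Agent.Results.MP_90c6bd_nt.StarshapedShifts
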